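import Pool.Agent.K1H94.AND.Final

/-!
# The log-rank conjecture for AND-functions, and for all meet matrices `f (x ⊓ y)`

Knop, Lovett, McGuire and Yuan (STOC 2021) proved that the deterministic communication complexity of
an AND-function `f (x ∧ y)`, `f : {0,1}^n → {0,1}`, is at most `O((log rank)^5 · log n)`.  Here the
factor `log n` is removed: the complexity is at most `4100 (log₂ (rank + 1) + 1)^7`.  The proof works
for `f (x ⊓ y)` on every finite meet-semilattice (subsets under intersection, integers under gcd,
subspaces under intersection, faces of a simplicial complex, …).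

Method.  Let `f` be a `0/1`-valued function on the subsets of a finite set with `r` nonconstant
monomials, restricted to a downset `D`.
(a) Among any `m + 1` monomials with union in `D` at most `κ = 2 (log₂ r)² + 1` are alone in their
class modulo the union of the others (block sensitivity and Markov's inequality).  Hence three
quarters of all `m`-tuples of monomials, `m = 8κ - 1`, leave at most `3r/4` monomials after
restricting to the sets containing their union.
(b) Reading such a tuple entry by entry, `f` is computed by a decision tree whose queries are does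
`x` contain a monomial of the list `𝒯`? The answer NO kills at least `r / (4m)` monomials publicly,
`m` answers YES restrict `f` to `3r/4` monomials.  So `f` has a decision list of
`(r + 1)^{O((log r)^5)}` monotone conjunctions, whatever the number of variables is.
(c) A decision list of `N` rectangles and rank `ρ` give a protocol with `O(log N log ρ)` bits
(rank halving, as in the theorems of Lovász and Nisan–Wigderson).
-/

set_option autoImplicit false

namespace Pool.Agent.Results.MP_3bd889_lc.AndFunctions

open Pool.Agent.H630R2.LR Pool.Agent.K1H94.AND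

/-- The `0/1` matrix `f (x ⊓ y)` of a function on a finite meet-semilattice. -/
def meetMatrix {S : Type} [SemilatticeInf S] (f : S → Bool) : Matrix S S ℝ :=
  Matrix.of (fun x y => if f (x ⊓ y) = true then (1 : ℝ) else 0)

/-- The graph of the `v`-entries of the matrix `f (x ⊓ y)`: the vertices are the pairs `(x, y)` with
`f (x ⊓ y) = v`, and `(x, y)`, `(x', y')` are adjacent iff `f (x ⊓ y') ≠ v` or `f (x' ⊓ y) ≠ v`.
(A set of vertices is independent iff the rectangle it spans is monochromatic, so the chromatic
number is the least number of monochromatic rectangles covering the `v`-entries.) -/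
def entryGraph {S : Type} [SemilatticeInf S] (f : S → Bool) (v : Bool) :
    SimpleGraph {p : S × S // f (p.1 ⊓ p.2) = v} where
  Adj p q := f (p.1.1 ⊓ q.1.2) ≠ v ∨ f (q.1.1 ⊓ p.1.2) ≠ v
  symm := ⟨fun _ _ h => h.symm⟩
  loopless := ⟨fun p h => by rcases h with h | h <;> exact h p.2⟩

/-- **The log-rank conjecture for AND-functions and meet matrices.**
Let `S` be a finite meet-semilattice (for AND-functions: `S = (Fin n → Bool)` or the subsets of a
finite set) and `f : S → Bool`, and let `ρ` be the real rank of the matrix `f (x ⊓ y)`.
(1) `f (x ⊓ y)` has a deterministic two-party protocol with at most `4100 (log₂ (ρ+1) + 1)^7` bits.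
(2) If `G` is a graph with maps `φ, ψ` from its vertices to `S` such that `u, v` are adjacent iff
`f (φ u ⊓ ψ v) = true`, then `log₂ χ(G) ≤ 4100 (log₂ (ρ+1) + 1)^7`.
(3) (Q1 with exponent `7` for the graphs attached to meet matrices.) Let `⊥` be the least element of
`S` and let `r > 1` be the real rank of the adjacency matrix of the graph `entryGraph f (f ⊥)`.
Then `log₂ χ ≤ 9000000 (log₂ r)^7` for this graph, and for the graph of the other entries too. -/
theorem result :
    (∀ (S : Type) [Fintype S] [SemilatticeInf S] (f : S → Bool),
      ∃ c : ℕ, Proto (fun x y : S => f (x ⊓ y)) c ∧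
        (c : ℝ) ≤ 4100 * (Real.logb 2 (((meetMatrix f).rank : ℝ) + 1) + 1) ^ 7) ∧
    (∀ (S : Type) [Fintype S] [SemilatticeInf S] (f : S → Bool) (W : Type) (G : SimpleGraph W)
      (φ ψ : W → S), (∀ u v, G.Adj u v ↔ f (φ u ⊓ ψ v) = true) →
      Real.logb 2 (G.chromaticNumber.toNat : ℝ) ≤
        4100 * (Real.logb 2 (((meetMatrix f).rank : ℝ) + 1) + 1) ^ 7) ∧
    (∀ (S : Type) [Fintype S] [SemilatticeInf S] [OrderBot S] (f : S → Bool)
      [DecidableRel (entryGraph f (f ⊥)).Adj] (r : ℕ),
      r = ((entryGraph f (f ⊥)).adjMatrix ℝ).rank → 1 < r → ∀ v : Bool,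
      Real.logb 2 ((entryGraph f v).chromaticNumber.toNat : ℝ) ≤
        9000000 * (Real.logb 2 r) ^ 7) := by
  refine ⟨?_, ?_, ?_⟩
  · intro S _ _ f
    exact meet_protocol f
  · intro S _ _ f W G φ ψ hG
    exact meet_graph f G φ ψ hG
  · intro S _ _ _ f inst r hr h1 v
    subst hr
    exact @meet_entry S _ _ _ f inst v h1

end Pool.Agent.Results.MP_3bd889_lc.AndFunctions
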