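import Pool.Agent.K1H68.CP.Final

/-!
# Chromatic number and rank of sum and difference graphs on coset progressions

Let the vertices of a graph `G` be covered by `t` sets, each parametrised by a finite abelian group `A`
with `e` generators times a box `∏ [m i]` of dimension `d` in such a way that the adjacency of two
vertices of the set depends only on the difference, or only on the sum, of their parameters (nothing is
assumed about pairs of vertices in different sets, and the group, the box and the parametrisation may
depend on the set). If `r` is the real rank of the adjacency matrix of `G`, then
`log₂ χ(G) ≤ (8 (d + e) + 5) (log₂ r + 1) ^ 5 + log₂ t`: no dependence on the sizes of the boxes and of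
the groups. With `d = 1`, `A = 0`, `t = 1` these are the graphs with Toeplitz or Hankel adjacency
matrix (circulant-like graphs without wrap-around: distance graphs and sum graphs on an interval), with
general `d` the distance graphs and sum graphs on a box in `ℤ ^ d`.

The proof. (1) A block Hankel matrix of Boolean sequences with rank `r` and more than `(r + 1) ^ 2`
block rows and columns: all the sequences can be extended simultaneously to sequences periodic from `r`
on, with the universal period `(2 ^ r)!`, without increasing the rank of the whole matrix
(`CP.Seq`, `CP.Block`). (2) So a box coordinate can be replaced by a cyclic group, after the parties of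
a protocol have told each other their positions if both are near the boundary (`CP.Reduce`).
(3) After `d` steps, there remains a family of functions on one abelian group with `d + e` generators,
whose spectra together have at most `r` elements (`CP.Crt`, `CP.Fam`). (4) The leaves of the protocol
give a colouring.

Used from the starting files: `H630R2.LR` (Galois invariance of the Fourier support, decision trees for
functions with vanishing mixed differences, the extension of one sequence), `H431R2.Hankel`,
`H287R3.LR.Graph` (from a protocol to a colouring).
-/

set_option autoImplicit false

namespace Pool.Agent.Results.MP_3bd889_lc.CosetProgressions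

/-- The set `S` of vertices of the graph `G` is a *patch* with `d` box coordinates and `e` generators:
there are a finite abelian group `A` generated by `e` elements, a box `∏ i, [m i]` of dimension `d` and
a parametrisation `φ` of (a set containing) `S` by `A × ∏ i, [m i]`, such that the adjacency of
`φ a u` and `φ b v` depends only on `a + b` and `u + v`, or depends only on `a - b` and `u - v`. -/
def GraphPatch {V : Type} (G : SimpleGraph V) (d e : ℕ) (S : Set V) : Prop :=
  ∃ (A : Type) (_ : AddCommGroup A) (_ : Fintype A) (gens : Fin e → A) (m : Fin d → ℕ)
    (φ : A → (∀ i, Fin (m i)) → V),
    AddSubgroup.closure (Set.range gens) = ⊤ ∧ (∀ x ∈ S, ∃ a u, φ a u = x) ∧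
    ((∀ (a a' b b' : A) (u u' v v' : ∀ i, Fin (m i)), a + b = a' + b' →
      (∀ i, (u i : ℤ) + v i = u' i + v' i) →
      (G.Adj (φ a u) (φ b v) ↔ G.Adj (φ a' u') (φ b' v'))) ∨
    (∀ (a a' b b' : A) (u u' v v' : ∀ i, Fin (m i)), a - b = a' - b' →
      (∀ i, (u i : ℤ) - v i = u' i - v' i) →
      (G.Adj (φ a u) (φ b v) ↔ G.Adj (φ a' u') (φ b' v'))))

/-- **The graph form of the log-rank conjecture for sum and difference graphs on coset
progressions.** Let the vertices of the finite graph `G` be covered by `t` patches with `d` box
coordinates and `e` generators, and let `r` be the real rank of the adjacency matrix of `G`. Then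
`log₂ χ(G) ≤ (8 (d + e) + 5) (log₂ r + 1) ^ 5 + log₂ t`. -/
theorem result {V : Type} [Fintype V] (G : SimpleGraph V) [DecidableRel G.Adj] (d e t : ℕ)
    (S : Fin t → Set V) (hS : ∀ x, ∃ p, x ∈ S p) (h : ∀ p, GraphPatch G d e (S p)) :
    Real.logb 2 (G.chromaticNumber.toNat : ℝ) ≤
      (8 * (d + e) + 5) * (Real.logb 2 ((G.adjMatrix ℝ).rank : ℝ) + 1) ^ 5 + Real.logb 2 t := by
  have key := Pool.Agent.K1H68.CP.final_graph G d e S hS (fun p => h p)
  rwa [Fintype.card_fin] at key

end Pool.Agent.Results.MP_3bd889_lc.CosetProgressions
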