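import Pool.Agent.K1H23.FC3

/-!
# Chromatic number and rank for graphs with few codegrees

The graph form of the log-rank conjecture holds for graphs whose pairs of nonadjacent vertices have
few different numbers of common neighbours. If these numbers take at most `s` values then the graph
has at most `C(r + s + 1, s + 1)` different neighbourhoods, `r` being the real rank of the adjacency
matrix, so `log χ(G) ≤ (s + 1) log (r + 1)`. This covers for instance

* all graphs in which any two vertices at distance two have the same number of common neighbours;
* all graphs whose automorphism group has few orbits on pairs of nonadjacent vertices (no condition on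
  the group), for instance the distance-regular graphs of every diameter;
* codegrees with positive weights, sizes of the symmetric differences of the neighbourhoods,
  codegrees which take few values modulo a prime different from the degree, and all graphs in which
  the number of neighbours of `u` which are not neighbours of `v` is not divisible by a given prime
  power `q`.

The condition is local (it is about the values at one vertex `u`, and only about vertices `v` of
smaller degree), and it is only needed inside the classes of a partition of the vertex set.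

Proof. Let `W` be the space of functions on `V` spanned by the rows of the adjacency matrix and by
the constants, of dimension at most `r + 1`. For a fixed vertex `u` the codegree of `u` and `v` is in
`W` as a function of `v`. So the function `(1 - A(u, v)) ∏ (codeg(u, v) - c)`, the product over the
values `c < deg u`, is in `W^(s+1)`, which has dimension at most `C(r + s + 1, s + 1)`; these
functions form a triangular system for the order of the degrees, and are linearly independent. For
prime powers `q` the product is replaced by the binomial coefficient `C(x + q - 1, q - 1)`, and the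
system is triangular modulo the prime.
-/

set_option autoImplicit false

open scoped Classical

namespace Pool.Agent.Results.MP_3bd889_lc.FewCodegrees

variable {V : Type} [Fintype V]

/-- the real rank of the adjacency matrix -/
noncomputable def rk (G : SimpleGraph V) : ℕ := (G.adjMatrix ℝ).rank

/-- `G` has at most `N` different neighbourhoods of vertices, and `χ(G) ≤ N` -/
def AtMost (G : SimpleGraph V) (N : ℕ) : Prop :=
  (Set.range G.neighborSet).ncard ≤ N ∧ G.Colorable N

/-- two vertices of the set `C` which are not adjacent and have different neighbourhoods -/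
def Pair (G : SimpleGraph V) (C : Set V) (u v : V) : Prop :=
  u ∈ C ∧ v ∈ C ∧ ¬ G.Adj u v ∧ G.neighborSet u ≠ G.neighborSet v

/-- the weight of the set of common neighbours of `u` and `v` (for `v = u` the weighted degree) -/
noncomputable def common {K : Type} [AddCommMonoid K] (G : SimpleGraph V) (w : V → K) (u v : V) : K :=
  ∑ x, if G.Adj u x ∧ G.Adj v x then w x else 0

/-- the weight of the symmetric difference of the neighbourhoods of `u` and `v` -/
noncomputable def diff (G : SimpleGraph V) (w : V → ℝ) (u v : V) : ℝ :=
  ∑ x, if (G.Adj u x ↔ G.Adj v x) then 0 else w x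

/-- the weight of the set of the neighbours of `u` which are not neighbours of `v` -/
noncomputable def private' (G : SimpleGraph V) (w : V → ℕ) (u v : V) : ℕ :=
  ∑ x, if G.Adj u x ∧ ¬ G.Adj v x then w x else 0

/-- **Chromatic number and rank for graphs with few codegrees.** Let `G` be a finite graph, `r` the
real rank of its adjacency matrix, `s ≥ 0`, and let the vertex set be covered by `t` sets `C i`, with
weights `w i` on the vertices. A pair is two nonadjacent vertices `u, v` of one of the sets
`C i` with different neighbourhoods.

(1) If for every `u` the weights (positive reals) of `N(u) ∩ N(v)`, over the pairs `u, v` such that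
`N(v)` does not have a larger weight than `N(u)`, take at most `s` values, then `G` has at most
`t C(r + s + 1, s + 1)` different neighbourhoods and at most this chromatic number.
(2) The same for the weights of the symmetric differences of `N(u)` and `N(v)`, over the pairs `u, v`
with `f(v) ≤ f(u)` for some function `f`.
(3) The same if for every `u` the weights (natural numbers) of `N(u) ∩ N(v)`, `f(v) ≤ f(u)`, take at
most `s` values modulo the prime `p`, different from the weight of `N(u)` modulo `p`.
(4) The same if for every `i` there are `s` pairs of vertices such that every pair in `C i` can be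
mapped to one of them by an automorphism of `G`.
(5) If for all pairs with `f(v) ≤ f(u)` the weight (a natural number) of the set of the
neighbours of `u` which are not neighbours of `v` is not divisible by the prime power `q`, then the
bound is `t C(r + q, q)`.
(6) If any two different nonadjacent vertices have no or exactly `μ` common neighbours then the
bound is `C(r + 3, 3)`.
(7) A bound `t C(r + k, k)` with `t ≥ 1` implies `log χ(G) ≤ log t + k log (r + 1)`. -/
theorem result (V : Type) [Fintype V] (G : SimpleGraph V) :
    (∀ (t : ℕ) (C : Fin t → Set V), (∀ v, ∃ i, v ∈ C i) →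
      (∀ (s : ℕ) (w : Fin t → V → ℝ), (∀ i x, 0 < w i x) →
        (∀ i u, ∃ L : Finset ℝ, L.card ≤ s ∧ ∀ v, Pair G (C i) u v →
          common G (w i) v v ≤ common G (w i) u u → common G (w i) u v ∈ L) →
        AtMost G (t * (rk G + (s + 1)).choose (s + 1))) ∧
      (∀ (s : ℕ) (w f : Fin t → V → ℝ), (∀ i x, 0 < w i x) →
        (∀ i u, ∃ L : Finset ℝ, L.card ≤ s ∧ ∀ v, Pair G (C i) u v →
          f i v ≤ f i u → diff G (w i) u v ∈ L) →
        AtMost G (t * (rk G + (s + 1)).choose (s + 1))) ∧
      (∀ (s p : ℕ) (w : Fin t → V → ℕ) (f : Fin t → V → ℝ), p.Prime →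
        (∀ i u, ∃ L : Finset (ZMod p), L.card ≤ s ∧ ((common G (w i) u u : ℕ) : ZMod p) ∉ L ∧
          ∀ v, Pair G (C i) u v → f i v ≤ f i u → ((common G (w i) u v : ℕ) : ZMod p) ∈ L) →
        AtMost G (t * (rk G + (s + 1)).choose (s + 1))) ∧
      (∀ s : ℕ, (∀ i, ∃ a b : Fin s → V, ∀ u v, Pair G (C i) u v →
          ∃ (j : Fin s) (φ : G ≃g G), (φ u = a j ∧ φ v = b j) ∨ (φ u = b j ∧ φ v = a j)) →
        AtMost G (t * (rk G + (s + 1)).choose (s + 1))) ∧
      (∀ (q : ℕ) (w : Fin t → V → ℕ) (f : Fin t → V → ℝ), IsPrimePow q →
        (∀ i u v, Pair G (C i) u v → f i v ≤ f i u → ¬ q ∣ private' G (w i) u v) →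
        AtMost G (t * (rk G + q).choose q))) ∧
    (∀ μ : ℕ, (∀ u v, u ≠ v → ¬ G.Adj u v → (G.commonNeighbors u v).ncard = 0 ∨
        (G.commonNeighbors u v).ncard = μ) →
      AtMost G ((rk G + 3).choose 3)) ∧
    (∀ t k : ℕ, 1 ≤ t → AtMost G (t * (rk G + k).choose k) →
      Real.log (G.chromaticNumber.toNat : ℝ) ≤ Real.log t + k * Real.log (rk G + 1)) := by
  refine ⟨fun t C hC => ⟨?_, ?_, ?_, ?_, ?_⟩, ?_, ?_⟩
  · intro s w hw h
    refine Pool.Agent.K1H23.FC.main_codeg G t s C hC w hw fun i u hu => ?_
    obtain ⟨L, h1, h2⟩ := h i u
    exact ⟨L, h1, fun v hv hadj hne hle => h2 v ⟨hu, hv, hadj, hne⟩ hle⟩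
  · intro s w f hw h
    refine Pool.Agent.K1H23.FC.main_sdiff G t s C hC w hw f fun i u hu => ?_
    obtain ⟨L, h1, h2⟩ := h i u
    exact ⟨L, h1, fun v hv hadj hne hle => h2 v ⟨hu, hv, hadj, hne⟩ hle⟩
  · intro s p w f hp h
    refine Pool.Agent.K1H23.FC.main_res G t s p hp C hC w f fun i u hu => ?_
    obtain ⟨L, h1, h2, h3⟩ := h i u
    exact ⟨L, h1, h2, fun v hv hadj hne hle => h3 v ⟨hu, hv, hadj, hne⟩ hle⟩
  · intro s h
    refine Pool.Agent.K1H23.FC.main_orb G t s C hC fun i => ?_
    obtain ⟨a, b, hab⟩ := h i
    exact ⟨a, b, fun u hu v hv hadj hne => hab u v ⟨hu, hv, hadj, hne⟩⟩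
  · intro q w f hq h
    obtain ⟨p, a, hp, -, rfl⟩ := (isPrimePow_nat_iff q).1 hq
    exact Pool.Agent.K1H23.FC.main_mod G t p a hp C hC w f
      fun i u hu v hv hadj hne hle => h i u v ⟨hu, hv, hadj, hne⟩ hle
  · intro m h
    exact Pool.Agent.K1H23.FC.main_two G m h
  · intro t k ht h
    exact Pool.Agent.K1H23.FC.log_form G t k ht h

end Pool.Agent.Results.MP_3bd889_lc.FewCodegrees
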