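import Pool.Agent.K1H68.LP.Final

/-!
# Chromatic number and rank of graphs with an abelian symmetry group without small prime factors

Let a finite abelian group `A` act by automorphisms on the finite graph `G` with at most `t` orbits
of vertices, let `r` be the real rank of the adjacency matrix, and suppose that all prime factors of
`|A|` are at least `p ≥ 3` (no condition on the number of generators or on the exponent of `A`).
Then `log₂ χ(G) ≤ log₂ t + (log₂ (r + 1) + 9 r / p ^ (3/2)) log₂ (r + 1)`.

The proof. The adjacency on an orbit is a Boolean function `f` on `A` with at most `r` nonzero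
Fourier coefficients, and `f` is constant on the cosets of the annihilator of the group generated by
its spectrum `Λ`; so we have to bound the order of this group. This is done by building it in steps.
(a) If a class modulo the subgroup reached so far contains many elements of `Λ`, or if an element of
`Λ` has composite order modulo it, then one step absorbs at least `p ^ 2 / 2` elements of `Λ` (Galois
conjugation). (b) Otherwise all the elements of `Λ` have the same prime order `q` modulo the subgroup,
and `f ^ 2 = f` together with an uncertainty principle for short sums of characters (`LP.Dens`: a sum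
of `k` characters vanishes in at most `(k - 1) |A| / p` points) shows that every sum of two elements
of `Λ` has another representation modulo the subgroup. Then either `Λ` is a Sylvester-Gallai
configuration, and each new dimension doubles the number of its elements, or two dimensions can be
collapsed, with a loss of at least about `q ^ (3/2)` elements of the image of `Λ`.

Used from the starting files: `Y387.SF.Base` (Chebotarev's theorem for cyclic groups of prime order),
`H630R2.LR` (the Fourier support and the rank, Galois invariance of the Fourier support).
-/

set_option autoImplicit false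

namespace Pool.Agent.Results.MP_3bd889_lc.LargePrimes

/-- **The graph form of the log-rank conjecture for graphs with an abelian group of automorphisms
without small prime factors.** Let a finite abelian group `A` all of whose prime factors are at least
`p ≥ 3` act by automorphisms on the finite graph `G` with at most `t` orbits of vertices, and let `r`
be the real rank of the adjacency matrix of `G`. Then
`log₂ χ(G) ≤ log₂ t + (log₂ (r + 1) + 9 r / p ^ (3/2)) log₂ (r + 1)`;
in particular `log₂ χ(G) ≤ log₂ t + 10 (log₂ (r + 1)) ^ 2` if `r ^ 2 ≤ p ^ 3`. -/
theorem result (A : Type) [AddCommGroup A] [Fintype A] (V : Type) [Fintype V] [AddAction A V]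
    (G : SimpleGraph V) [DecidableRel G.Adj]
    (hG : ∀ (g : A) (u v : V), G.Adj (g +ᵥ u) (g +ᵥ v) ↔ G.Adj u v)
    (p t : ℕ) (hp3 : 3 ≤ p) (hp : ∀ q : ℕ, q.Prime → q ∣ Fintype.card A → p ≤ q)
    (ht : Nat.card (AddAction.orbitRel.Quotient A V) ≤ t) :
    Real.logb 2 (G.chromaticNumber.toNat : ℝ) ≤ Real.logb 2 t +
      (Real.logb 2 (((G.adjMatrix ℝ).rank : ℝ) + 1) +
          9 * ((G.adjMatrix ℝ).rank : ℝ) / ((p : ℝ) * Real.sqrt p)) *
        Real.logb 2 (((G.adjMatrix ℝ).rank : ℝ) + 1) ∧
    ((G.adjMatrix ℝ).rank ^ 2 ≤ p ^ 3 →
      Real.logb 2 (G.chromaticNumber.toNat : ℝ) ≤ Real.logb 2 t +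
        10 * Real.logb 2 (((G.adjMatrix ℝ).rank : ℝ) + 1) ^ 2) := by
  have h := Pool.Agent.K1H68.LP.graph_bound G hG hp3
    (by rw [Nat.card_eq_fintype_card]; exact hp) ht
  refine ⟨h, fun hr => h.trans ?_⟩
  have := Pool.Agent.K1H68.LP.bnd_le hr
  linarith

end Pool.Agent.Results.MP_3bd889_lc.LargePrimes
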